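import Mathlib
import Pool.Agent.Helper50.PR.Defs
import Pool.Agent.Helper30.PR.PellLemmas

open Finset

namespace Pool.Agent.Helper50.PR

/-- the Pell equation over the integers -/
theorem cc_pellz {a : ℕ} (a1 : 1 < a) (n : ℕ) :
    (Pell.xn a1 n : ℤ) ^ 2 - ((a : ℤ) ^ 2 - 1) * (Pell.yn a1 n : ℤ) ^ 2 = 1 := by
  have h := Pell.pell_eqz a1 n
  have hx : Pell.xz a1 n = (Pell.xn a1 n : ℤ) := rfl
  have hy : Pell.yz a1 n = (Pell.yn a1 n : ℤ) := rfl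
  have hz : Pell.az a = (a : ℤ) := rfl
  rw [Pell.dz_val, hx, hy, hz] at h
  linear_combination h

/-- if `X = a + (a^2-1) w` is an `x`, then `qY` is the square of the `y` -/
theorem cc_qY_eq {a : ℕ} (a1 : 1 < a) (n : ℕ) {w : ℤ}
    (h : (a : ℤ) + ((a : ℤ) ^ 2 - 1) * w = Pell.xn a1 n) :
    qY (a : ℤ) w = (Pell.yn a1 n : ℤ) ^ 2 := by
  have ha : (0 : ℤ) < (a : ℤ) ^ 2 - 1 := by
    have : (1 : ℤ) < a := by exact_mod_cast a1
    nlinarith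
  have h1 := cc_pellz a1 n
  rw [← h] at h1
  have h2 : ((a : ℤ) ^ 2 - 1) * qY (a : ℤ) w = ((a : ℤ) ^ 2 - 1) * (Pell.yn a1 n : ℤ) ^ 2 := by
    unfold qY
    linear_combination h1
  exact mul_left_cancel₀ ha.ne' h2

theorem cc_sq_sub_one_pos {a : ℤ} (h : 1 < a) : 0 < a ^ 2 - 1 := by nlinarith

theorem cc_le_aux {A E : ℤ} (hA : 0 < A) (hE : 1 ≤ E) : E ≤ A * E ^ 2 + 1 := by
  have h1 : E ≤ E ^ 2 := by nlinarith
  have h2 : E ^ 2 ≤ A * E ^ 2 := le_mul_of_one_le_left (sq_nonneg E) hA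
  linarith

theorem chain_complete {n a : ℕ} (a1 : 1 < a) (hn : 3 ≤ n) (ho : Odd n) :
    ∃ w e y : ℕ, 1 ≤ w ∧ 1 ≤ e ∧
    IsSquare (qY (a : ℤ) w) ∧
    IsSquare (qF (a : ℤ) (qY (a : ℤ) w * e)) ∧
    IsSquare (qY (qb (a : ℤ) (qF (a : ℤ) (qY (a : ℤ) w * e)))
      ((w : ℤ) + qF (a : ℤ) (qY (a : ℤ) w * e) * y)) ∧
    2 * qY (a : ℤ) w ∣
      2 * ((w : ℤ) + qF (a : ℤ) (qY (a : ℤ) w * e) * y) + 1 - (n : ℤ) ^ 4 ∧
    (a : ℤ) + ((a : ℤ) ^ 2 - 1) * w = Pell.xn a1 (n ^ 2) := by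
  set k := n ^ 2 with hk
  have hkodd : Odd k := ho.pow
  have hk1 : 1 < k := by rw [hk]; nlinarith
  have ha1 : (1 : ℤ) < a := by exact_mod_cast a1
  have hA : (0 : ℤ) < (a : ℤ) ^ 2 - 1 := cc_sq_sub_one_pos ha1
  set X := Pell.xn a1 k with hX
  set Y := Pell.yn a1 k with hY
  have hXa : a < X := by
    have h := Pell.strictMono_x a1 hk1
    rwa [Pell.xn_one] at h
  -- w
  obtain ⟨w', hw'⟩ := xn_odd_dvd a1 k hkodd
  have hw'pos : 0 < w' := by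
    by_contra hcon
    push Not at hcon
    have h1 : (X : ℤ) - a ≤ 0 := by rw [hX, hw']; exact mul_nonpos_of_nonneg_of_nonpos hA.le hcon
    have h2 : (a : ℤ) < X := by exact_mod_cast hXa
    linarith
  obtain ⟨w, rfl⟩ : ∃ w : ℕ, w' = w := ⟨w'.toNat, (Int.toNat_of_nonneg hw'pos.le).symm⟩
  have hw1 : 1 ≤ w := by exact_mod_cast hw'pos
  have hXw : (a : ℤ) + ((a : ℤ) ^ 2 - 1) * w = X := by rw [← hw']; ring
  have hqY : qY (a : ℤ) w = (Y : ℤ) ^ 2 := cc_qY_eq a1 k hXw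
  have hYpos : 0 < Y := by
    have h := Pell.strictMono_y a1 (show 0 < k by omega)
    rwa [Pell.yn_zero] at h
  -- f and E
  set f := k * Y with hf
  obtain ⟨e, he⟩ := Pell.ysq_dvd_yy a1 k
  rw [← hY, ← hf] at he
  set E := Pell.yn a1 f with hE
  have hfpos : 0 < f := by rw [hf]; exact Nat.mul_pos (by omega) hYpos
  have hEpos : 0 < E := by
    have h := Pell.strictMono_y a1 hfpos
    rwa [Pell.yn_zero] at h
  have he1 : 1 ≤ e := by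
    rcases Nat.eq_zero_or_pos e with h0 | h0
    · rw [h0, mul_zero] at he; omega
    · exact h0
  have hEe : qY (a : ℤ) w * e = (E : ℤ) := by
    rw [hqY, he]; push_cast; ring
  have hF : qF (a : ℤ) (E : ℤ) = (Pell.xn a1 f : ℤ) ^ 2 := by
    have := cc_pellz a1 f
    unfold qF
    linear_combination -this
  set Fn : ℕ := Pell.xn a1 f ^ 2 with hFn
  have hFF : qF (a : ℤ) (E : ℤ) = (Fn : ℤ) := by rw [hF, hFn]; push_cast; ring
  have hFa : a ≤ Fn := by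
    have h1 : Pell.xn a1 1 ≤ Pell.xn a1 f := (Pell.strictMono_x a1).monotone (by omega)
    rw [Pell.xn_one] at h1
    rw [hFn]
    exact h1.trans (Nat.le_self_pow (by norm_num) _)
  set b : ℕ := a + Fn * (Fn - a) with hb
  have hbz : (b : ℤ) = qb (a : ℤ) (Fn : ℤ) := by
    unfold qb
    rw [hb]
    push_cast [Nat.cast_sub hFa]
    ring
  have b1 : 1 < b := by rw [hb]; omega
  have hb1z : (1 : ℤ) < b := by exact_mod_cast b1
  set XH := Pell.xn b1 k with hXH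
  have hbX : b < XH := by
    have h := Pell.strictMono_x b1 hk1
    rwa [Pell.xn_one] at h
  obtain ⟨wH, hwH⟩ := xn_odd_dvd b1 k hkodd
  have hB : (0 : ℤ) < (b : ℤ) ^ 2 - 1 := cc_sq_sub_one_pos hb1z
  have hXHw : (b : ℤ) + ((b : ℤ) ^ 2 - 1) * wH = XH := by rw [← hwH]; ring
  have hwHpos : 0 ≤ wH := by
    by_contra hcon
    push Not at hcon
    have h2 : (b : ℤ) < XH := by exact_mod_cast hbX
    have h3 := mul_neg_of_pos_of_neg hB hcon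
    linarith
  have hqYb : qY (b : ℤ) wH = (Pell.yn b1 k : ℤ) ^ 2 := cc_qY_eq b1 k hXHw
  -- congruence wH = w mod F
  have hbF : (Fn : ℤ) ∣ (b : ℤ) - a := ⟨(Fn : ℤ) - a, by rw [hbz]; unfold qb; ring⟩
  have hcong : (Fn : ℤ) ∣ (XH : ℤ) - X := by
    have h1 : b ≡ a [MOD Fn] := (Nat.modEq_iff_dvd.2 (by
      have := (dvd_neg (α := ℤ)).2 hbF
      simpa using this))
    have h2 := (Pell.xy_modEq_of_modEq b1 a1 h1 k).1
    have h3 := Nat.modEq_iff_dvd.1 h2.symm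
    exact h3
  have hdvd1 : (Fn : ℤ) ∣ ((a : ℤ) ^ 2 - 1) * (wH - w) := by
    have e1 : ((a : ℤ) ^ 2 - 1) * (wH - w) =
        ((XH : ℤ) - X) - ((b : ℤ) - a) - ((b : ℤ) - a) * ((b : ℤ) + a) * wH := by
      rw [← hXHw, ← hXw]; ring
    rw [e1]
    exact dvd_sub (dvd_sub hcong hbF) ((hbF.mul_right _).mul_right _)
  have hcop : IsCoprime (Fn : ℤ) ((a : ℤ) ^ 2 - 1) := by
    refine ⟨1, -(E : ℤ) ^ 2, ?_⟩
    rw [← hFF]
    unfold qF
    ring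
  have hdvd2 : (Fn : ℤ) ∣ wH - w := hcop.dvd_of_dvd_mul_left hdvd1
  obtain ⟨y', hy'⟩ := hdvd2
  have hwF : (w : ℤ) < Fn := by
    have h1 : (w : ℤ) < qY (a : ℤ) w := by
      unfold qY
      have h0 : (0 : ℤ) ≤ w := Int.natCast_nonneg w
      have h1 : (w : ℤ) ≤ 2 * a * w := le_mul_of_one_le_left h0 (by linarith)
      have h2 : 0 ≤ ((a : ℤ) ^ 2 - 1) * (w : ℤ) ^ 2 := mul_nonneg hA.le (sq_nonneg _)
      linarith
    have h2 : qY (a : ℤ) w ≤ (E : ℤ) := by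
      rw [← hEe]
      have h3 : (0 : ℤ) < qY (a : ℤ) w := by rw [hqY]; positivity
      have : (1 : ℤ) ≤ e := by exact_mod_cast he1
      exact le_mul_of_one_le_right h3.le this
    have h3 : (E : ℤ) ≤ Fn := by
      rw [← hFF]
      unfold qF
      have : (1 : ℤ) ≤ E := by exact_mod_cast hEpos
      exact cc_le_aux hA this
    linarith
  have hy0 : 0 ≤ y' := by
    by_contra hcon
    push Not at hcon
    have h1 : y' ≤ -1 := by omega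
    have h2 : (0 : ℤ) < Fn := by
      have : (0 : ℤ) ≤ w := by positivity
      linarith
    have h3 : (Fn : ℤ) * y' ≤ Fn * (-1) := mul_le_mul_of_nonneg_left h1 h2.le
    linarith
  obtain ⟨y, rfl⟩ : ∃ y : ℕ, y' = y := ⟨y'.toNat, (Int.toNat_of_nonneg hy0).symm⟩
  have hwHy : (w : ℤ) + Fn * y = wH := by rw [← hy']; ring
  refine ⟨w, e, y, hw1, he1, ⟨(Y : ℤ), by rw [hqY]; ring⟩, ?_, ?_, ?_, hXw⟩
  · rw [hEe, hF]; exact ⟨_, by ring⟩
  · rw [hEe, hFF, hwHy, ← hbz, hqYb]; exact ⟨_, by ring⟩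
  · rw [hEe, hFF, hwHy]
    -- (b - 1) | 2 wH + 1 - k^2
    have hb1 : (b : ℤ) - 1 ≠ 0 := by linarith
    have h1 : ((b : ℤ) - 1) ^ 2 ∣ (XH : ℤ) - (1 + (k : ℤ) ^ 2 * ((b : ℤ) - 1)) :=
      (Int.modEq_iff_dvd.1 (xn_modEq_sq b1 k).symm)
    have h2 : ((b : ℤ) - 1) ∣ 1 + ((b : ℤ) + 1) * wH - (k : ℤ) ^ 2 := by
      obtain ⟨c, hc⟩ := h1
      refine ⟨c, ?_⟩
      apply mul_left_cancel₀ hb1
      rw [← hXHw] at hc
      linear_combination hc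
    have h3 : ((b : ℤ) - 1) ∣ 2 * wH + 1 - (n : ℤ) ^ 4 := by
      have e1 : 2 * wH + 1 - (n : ℤ) ^ 4 =
          (1 + ((b : ℤ) + 1) * wH - (k : ℤ) ^ 2) - ((b : ℤ) - 1) * wH := by
        rw [hk]; push_cast; ring
      rw [e1]
      exact dvd_sub h2 (dvd_mul_right _ _)
    have h4 : qY (a : ℤ) w ∣ (b : ℤ) - 1 := by
      have e1 : (b : ℤ) - 1 = ((Fn : ℤ) - 1) * ((Fn : ℤ) + 1 - a) := by
        rw [hbz]; unfold qb; ring
      have e2 : (Fn : ℤ) - 1 = qY (a : ℤ) w * (((a : ℤ) ^ 2 - 1) * e * E) := by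
        have : (Fn : ℤ) - 1 = ((a : ℤ) ^ 2 - 1) * (E : ℤ) * E := by
          rw [← hFF]; unfold qF; ring
        rw [this]
        nth_rewrite 1 [← hEe]
        ring
      rw [e1, e2]
      exact (dvd_mul_right _ _).mul_right _
    have h5 : qY (a : ℤ) w ∣ 2 * wH + 1 - (n : ℤ) ^ 4 := h4.trans h3
    have hYodd : Odd Y := by
      have h6 : Y ≡ k [MOD 2] := Pell.yn_modEq_two a1 k
      rw [Nat.odd_iff] at hkodd ⊢
      rw [← hkodd]
      exact h6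
    have h7 : IsCoprime (2 : ℤ) (qY (a : ℤ) w) := by
      rw [hqY]
      obtain ⟨c, hc⟩ := hYodd
      refine ⟨-(2 * (c : ℤ) ^ 2 + 2 * c), 1, ?_⟩
      rw [hc]; push_cast; ring
    refine h7.mul_dvd ?_ h5
    obtain ⟨c, hc⟩ := ho
    refine ⟨wH - ((2 * (c : ℤ) + 1) ^ 4 - 1) / 2, ?_⟩
    have e3 : ((2 * (c : ℤ) + 1) ^ 4 - 1) / 2 = 8 * (c : ℤ) ^ 4 + 16 * c ^ 3 + 12 * c ^ 2 + 4 * c := by
      rw [show ((2 * (c : ℤ) + 1) ^ 4 - 1) = (8 * (c : ℤ) ^ 4 + 16 * c ^ 3 + 12 * c ^ 2 + 4 * c) * 2 by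
        ring]
      exact Int.mul_ediv_cancel _ (by norm_num)
    rw [e3, hc]
    push_cast
    ring

end Pool.Agent.Helper50.PR
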